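import Pool.Agent.W8.KU.Stm

set_option autoImplicit false

namespace Pool.Agent.W726.KU

open Pool.Agent.W8.KU MeasureTheory

theorem Hpos_proof : Hpos := by
  unfold Hpos
  set f : E3 → (Fin 2 → ℝ) := fun x => ![x 0, x 1] with hf
  have hL : LipschitzWith 1 f := by
    refine LipschitzWith.of_dist_le_mul fun x y => ?_
    rw [NNReal.coe_one, one_mul]
    refine (dist_pi_le_iff dist_nonneg).2 fun i => ?_
    have key : ∀ j : Fin 3, dist (x j) (y j) ≤ dist x y := by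
      intro j
      rw [dist_eq_norm, dist_eq_norm]
      exact PiLp.norm_apply_le (x - y) j
    fin_cases i
    · exact key 0
    · exact key 1
  have h1 := hL.hausdorffMeasure_image_le (d := 2) (by norm_num) (Metric.sphere (0 : E3) 1)
  rw [ENNReal.coe_one, ENNReal.one_rpow, one_mul] at h1
  have hsub : Set.Icc (fun _ : Fin 2 => (-1 / 2 : ℝ)) (fun _ => (1 / 2 : ℝ)) ⊆
      f '' Metric.sphere (0 : E3) 1 := by
    intro y hy
    have h0 : -1 / 2 ≤ y 0 ∧ y 0 ≤ 1 / 2 := ⟨hy.1 0, hy.2 0⟩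
    have h1 : -1 / 2 ≤ y 1 ∧ y 1 ≤ 1 / 2 := ⟨hy.1 1, hy.2 1⟩
    have hnn : 0 ≤ 1 - y 0 ^ 2 - y 1 ^ 2 := by nlinarith [h0.1, h0.2, h1.1, h1.2]
    refine ⟨!₂[y 0, y 1, Real.sqrt (1 - y 0 ^ 2 - y 1 ^ 2)], ?_, ?_⟩
    · rw [mem_sphere_zero_iff_norm, EuclideanSpace.norm_eq, Fin.sum_univ_three]
      simp only [Real.norm_eq_abs, sq_abs]
      have h6 : ∀ a b c : ℝ, (![a, b, c] : Fin 3 → ℝ) 0 = a ∧ (![a, b, c] : Fin 3 → ℝ) 1 = b ∧
          (![a, b, c] : Fin 3 → ℝ) 2 = c := fun a b c => ⟨rfl, rfl, rfl⟩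
      obtain ⟨h3, h4, h5⟩ := h6 (y 0) (y 1) (Real.sqrt (1 - y 0 ^ 2 - y 1 ^ 2))
      rw [h3, h4, h5, Real.sq_sqrt hnn, Real.sqrt_eq_one]
      ring
    · funext i
      fin_cases i <;> rfl
  have h2 : (Measure.hausdorffMeasure 2 : Measure (Fin 2 → ℝ)) = volume := by
    have := hausdorffMeasure_pi_real (ι := Fin 2)
    simpa using this
  have h3 : 0 < (Measure.hausdorffMeasure 2 : Measure (Fin 2 → ℝ))
      (Set.Icc (fun _ : Fin 2 => (-1 / 2 : ℝ)) (fun _ => (1 / 2 : ℝ))) := by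
    rw [h2, Real.volume_Icc_pi, Fin.prod_univ_two]
    norm_num
  exact lt_of_lt_of_le h3 (le_trans (measure_mono hsub) h1)

end Pool.Agent.W726.KU
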